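import Pool.Agent.PCH84.Rot

/-!
# The exceptional index
-/

set_option autoImplicit false

namespace PCH84

/-- the polynomial inequality -/
theorem exc_poly {a b : ℝ} (ha0 : 0 ≤ a) (ha : a ≤ 1 / 4) (h1 : 1 ≤ a + b) (h2 : a + b ≤ 7 / 6) :
    (4 / 3 - a ^ 2) * (3 + (a - b) ^ 2) ^ 2 ≤
      3 * (8 / 3 * b - 2 * a ^ 2 * b + a / 3 + a ^ 3 + a * b ^ 2) ^ 2 := by
  obtain ⟨s, rfl⟩ : ∃ s, b = 1 - a + s := ⟨b - 1 + a, by ring⟩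
  have hs0 : 0 ≤ s := by linarith
  have hs : s ≤ 1 / 6 := by linarith
  have hU : 0 ≤ 64 / 3 * (1 - 5 * a + 5 * a ^ 2) + a ^ 3 * (128 / 3 - 128 * a + 64 * a ^ 2) := by
    have h3 : 0 ≤ 1 - 5 * a + 5 * a ^ 2 := by nlinarith
    have h4 : 0 ≤ 128 / 3 - 128 * a + 64 * a ^ 2 := by nlinarith
    positivity
  have hV : 0 ≤ (64 / 3 - 192 * a ^ 2) + s * (16 / 3 - 16 / 3 * s - 4 / 3 * s ^ 2) +
      80 * (a * s * (1 - a)) + a * (224 / 3 + 80 / 3 * s ^ 2 - 128 * a ^ 4) +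
      a ^ 2 * (16 * s ^ 2 + 4 * s ^ 3) + a ^ 3 * (128 / 3 - 96 * s - 32 * s ^ 2) +
      a ^ 4 * (192 + 96 * s) := by
    have h3 : 0 ≤ 64 / 3 - 192 * a ^ 2 := by nlinarith
    have h4 : 0 ≤ 16 / 3 - 16 / 3 * s - 4 / 3 * s ^ 2 := by nlinarith
    have h5 : 0 ≤ 1 - a := by linarith
    have h6 : 0 ≤ 224 / 3 + 80 / 3 * s ^ 2 - 128 * a ^ 4 := by
      have : a ^ 4 ≤ 1 := pow_le_one₀ ha0 (by linarith)
      have : a ^ 4 ≤ (1 / 4 : ℝ) ^ 4 := pow_le_pow_left₀ ha0 ha 4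
      nlinarith [sq_nonneg s]
    have h7 : 0 ≤ 128 / 3 - 96 * s - 32 * s ^ 2 := by nlinarith
    positivity
  have h := add_nonneg (mul_nonneg ha0 hU) (mul_nonneg hs0 hV)
  have key : 3 * (8 / 3 * (1 - a + s) - 2 * a ^ 2 * (1 - a + s) + a / 3 + a ^ 3 +
        a * (1 - a + s) ^ 2) ^ 2 - (4 / 3 - a ^ 2) * (3 + (a - (1 - a + s)) ^ 2) ^ 2 =
      a * (64 / 3 * (1 - 5 * a + 5 * a ^ 2) + a ^ 3 * (128 / 3 - 128 * a + 64 * a ^ 2)) +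
      s * ((64 / 3 - 192 * a ^ 2) + s * (16 / 3 - 16 / 3 * s - 4 / 3 * s ^ 2) +
      80 * (a * s * (1 - a)) + a * (224 / 3 + 80 / 3 * s ^ 2 - 128 * a ^ 4) +
      a ^ 2 * (16 * s ^ 2 + 4 * s ^ 3) + a ^ 3 * (128 / 3 - 96 * s - 32 * s ^ 2) +
      a ^ 4 * (192 + 96 * s)) := by ring
  linarith

/-- scalar form: `m` is the lower bound for the square of the norm of `τ₂ + v` -/
theorem exc_core {a b Q w T X : ℝ} (ha0 : 0 ≤ a) (ha : a ≤ 1 / 4) (h1 : 1 ≤ a + b)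
    (h2 : a + b ≤ 7 / 6) (hT : 0 < T) (hA : 4 / 3 < a ^ 2 + T ^ 2) (hB : 4 / 3 < b ^ 2 + X)
    (hQ1 : 1 ≤ Q) (hw0 : 0 ≤ w) (hQw : Q ^ 2 + w ^ 2 = 4 / 3)
    (hw : w ≤ (√(4 / 3 - a ^ 2) - √3 * a) / 2)
    (hQ : (a + √3 * √(4 / 3 - a ^ 2)) / 2 ≤ Q) :
    4 ≤ (Q + b) ^ 2 + (X + w / T * (T ^ 2 + X - 3) + w ^ 2) := by
  have h3 : √3 ^ 2 = 3 := Real.sq_sqrt (by norm_num)
  have h30 : 0 < √3 := by positivity
  set s := √(4 / 3 - a ^ 2) with hs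
  have hs2 : s ^ 2 = 4 / 3 - a ^ 2 := Real.sq_sqrt (by nlinarith)
  have hspos : 0 < s := Real.sqrt_pos.2 (by nlinarith)
  have hsT : s ≤ T := by
    refine abs_le_of_sq_le_sq' ?_ hT.le |>.2
    rw [hs2]; linarith
  set r := √3 with hr
  have hb : 3 / 4 ≤ b := by linarith
  have hwT : 0 ≤ w / T := by positivity
  -- reduction to `X = 4/3 - b²`
  have hred : 8 / 3 + 2 * Q * b - w / T * (5 / 3 + b ^ 2 - T ^ 2) ≤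
      (Q + b) ^ 2 + (X + w / T * (T ^ 2 + X - 3) + w ^ 2) := by
    have h4 : 0 ≤ (1 + w / T) * (b ^ 2 + X - 4 / 3) := by
      apply mul_nonneg <;> linarith
    nlinarith
  refine le_trans ?_ hred
  rcases le_or_gt (5 / 3 + b ^ 2 - T ^ 2) 0 with hk | hk
  · have h4 : w / T * (5 / 3 + b ^ 2 - T ^ 2) ≤ 0 := mul_nonpos_of_nonneg_of_nonpos hwT hk
    nlinarith
  -- monotonicity
  have hmono : w / T * (5 / 3 + b ^ 2 - T ^ 2) ≤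
      ((s - r * a) / 2) / s * (5 / 3 + b ^ 2 - s ^ 2) := by
    have h4 : w / T ≤ ((s - r * a) / 2) / s := by
      have h5 : w / T ≤ w / s := div_le_div_of_nonneg_left hw0 hspos hsT
      exact h5.trans (div_le_div_of_nonneg_right hw hspos.le)
    have h5 : 5 / 3 + b ^ 2 - T ^ 2 ≤ 5 / 3 + b ^ 2 - s ^ 2 := by
      have : s ^ 2 ≤ T ^ 2 := pow_le_pow_left₀ hspos.le hsT 2
      linarith
    exact mul_le_mul h4 h5 hk.le (hwT.trans h4)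
  -- the polynomial inequality
  have hpoly := exc_poly ha0 ha h1 h2
  have hBpos : 0 ≤ 8 / 3 * b - 2 * a ^ 2 * b + a / 3 + a ^ 3 + a * b ^ 2 := by
    have h4 : 0 ≤ (8 / 3 - 2 * a ^ 2) * b := by
      apply mul_nonneg <;> nlinarith
    have h5 : 0 ≤ a / 3 + a ^ 3 + a * b ^ 2 := by positivity
    nlinarith
  have hrB : s * (3 + (a - b) ^ 2) ≤
      r * (8 / 3 * b - 2 * a ^ 2 * b + a / 3 + a ^ 3 + a * b ^ 2) := by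
    refine abs_le_of_sq_le_sq' ?_ (mul_nonneg h30.le hBpos) |>.2
    rw [mul_pow, mul_pow, hs2, h3]
    exact hpoly
  have hfin : 4 / 3 * s + ((s - r * a) / 2) * (5 / 3 + b ^ 2 - s ^ 2) ≤
      (a + r * s) * b * s := by
    have e : (a + r * s) * b * s - (4 / 3 * s + ((s - r * a) / 2) * (5 / 3 + b ^ 2 - s ^ 2)) =
        (a * b * s + r * b * s ^ 2 - 4 / 3 * s) -
          (s - r * a) / 2 * (5 / 3 + b ^ 2 - s ^ 2) := by ring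
    have e2 : (a * b * s + r * b * s ^ 2 - 4 / 3 * s) -
          (s - r * a) / 2 * (5 / 3 + b ^ 2 - s ^ 2) =
        (r * (8 / 3 * b - 2 * a ^ 2 * b + a / 3 + a ^ 3 + a * b ^ 2) -
          s * (3 + (a - b) ^ 2)) / 2 := by
      rw [hs2]; ring
    linarith
  have hfin2 : 4 / 3 + ((s - r * a) / 2) / s * (5 / 3 + b ^ 2 - s ^ 2) ≤ (a + r * s) * b := by
    have h4 : (4 / 3 + ((s - r * a) / 2) / s * (5 / 3 + b ^ 2 - s ^ 2)) * s ≤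
        (a + r * s) * b * s := by
      have e : (4 / 3 + ((s - r * a) / 2) / s * (5 / 3 + b ^ 2 - s ^ 2)) * s =
          4 / 3 * s + ((s - r * a) / 2) * (5 / 3 + b ^ 2 - s ^ 2) := by
        field_simp
      rw [e]
      exact hfin
    exact le_of_mul_le_mul_right h4 hspos
  have hQb : (a + r * s) * b ≤ 2 * Q * b := by nlinarith
  linarith

variable {H : Type*} [NormedAddCommGroup H] [InnerProductSpace ℝ H]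

/-- the exceptional index is fine if `P₁ ≤ 1/4` -/
theorem exc_fine {τ₁ τ₂ : H} {a b Q w : ℝ} (ha0 : 0 ≤ a) (ha : a ≤ 1 / 4) (h1 : 1 ≤ a + b)
    (h2 : a + b ≤ 7 / 6) (hd : ‖τ₁ - τ₂‖ ^ 2 ≤ 3) (hτ : 0 < ‖τ₁‖)
    (hA : 4 / 3 < a ^ 2 + ‖τ₁‖ ^ 2) (hB : 4 / 3 < b ^ 2 + ‖τ₂‖ ^ 2)
    (hQ1 : 1 ≤ Q) (hw0 : 0 ≤ w) (hQw : Q ^ 2 + w ^ 2 = 4 / 3)
    (hw : w ≤ (√(4 / 3 - a ^ 2) - √3 * a) / 2)
    (hQ : (a + √3 * √(4 / 3 - a ^ 2)) / 2 ≤ Q) :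
    4 ≤ (Q + b) ^ 2 + ‖τ₂ + (w / ‖τ₁‖) • τ₁‖ ^ 2 := by
  have h := exc_core ha0 ha h1 h2 hτ hA hB hQ1 hw0 hQw hw hQ
  refine h.trans ?_
  have e1 : ‖τ₂ + (w / ‖τ₁‖) • τ₁‖ ^ 2 = ‖τ₂‖ ^ 2 + 2 * (w / ‖τ₁‖ * inner ℝ τ₂ τ₁) + w ^ 2 := by
    rw [norm_add_sq_real, (norm_add_self hτ hw0).2, real_inner_smul_right]
  have e2 : ‖τ₁ - τ₂‖ ^ 2 = ‖τ₁‖ ^ 2 - 2 * inner ℝ τ₂ τ₁ + ‖τ₂‖ ^ 2 := by
    rw [norm_sub_sq_real, real_inner_comm]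
  rw [e1]
  have h3 : ‖τ₁‖ ^ 2 + ‖τ₂‖ ^ 2 - 3 ≤ 2 * inner ℝ τ₂ τ₁ := by linarith
  have h4 : w / ‖τ₁‖ * (‖τ₁‖ ^ 2 + ‖τ₂‖ ^ 2 - 3) ≤ w / ‖τ₁‖ * (2 * inner ℝ τ₂ τ₁) :=
    mul_le_mul_of_nonneg_left h3 (by positivity)
  linarith

end PCH84
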