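import Mathlib

/-!
# Choice of the new vector: intermediate value and the rotation by 60 degrees
-/

set_option autoImplicit false

namespace PCH84

/-- a blocked index has a small first coordinate -/
theorem small_of_blocked {a T : ℝ} (ha : 0 ≤ a) (hunc : 4 / 3 < a ^ 2 + T ^ 2)
    (hbl : (2 / √3 + a) ^ 2 + T ^ 2 < 4) : 3 * a ^ 2 < 1 := by
  have h3 : √3 ^ 2 = 3 := Real.sq_sqrt (by norm_num)
  have h30 : 0 < √3 := by positivity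
  have hr : (2 / √3) ^ 2 = 4 / 3 := by rw [div_pow, h3]; norm_num
  have h1 : 2 * (2 / √3) * a < 4 / 3 := by nlinarith
  have h2 : √3 * a < 1 := by
    have h4 : 2 / √3 = 2 * √3 / 3 := by
      rw [div_eq_div_iff h30.ne' (by norm_num)]
      nlinarith
    rw [h4] at h1
    nlinarith
  have h5 : 0 ≤ √3 * a := by positivity
  nlinarith

/-- the value of `w` -/
theorem exists_w {a T : ℝ} (ha : 0 ≤ a) (hT : 0 ≤ T) (hunc : 4 / 3 < a ^ 2 + T ^ 2)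
    (hbl : (2 / √3 + a) ^ 2 + T ^ 2 < 4) :
    ∃ Q w : ℝ, 1 ≤ Q ∧ 0 ≤ w ∧ Q ^ 2 + w ^ 2 = 4 / 3 ∧ (Q + a) ^ 2 + (w + T) ^ 2 = 4 ∧
      w ≤ (√(4 / 3 - a ^ 2) - √3 * a) / 2 ∧ (a + √3 * √(4 / 3 - a ^ 2)) / 2 ≤ Q ∧
      3 * a ^ 2 < 1 := by
  have h3 : √3 ^ 2 = 3 := Real.sq_sqrt (by norm_num)
  have h30 : 0 < √3 := by positivity
  have ha2 := small_of_blocked ha hunc hbl
  set s := √(4 / 3 - a ^ 2) with hs
  have hs2 : s ^ 2 = 4 / 3 - a ^ 2 := Real.sq_sqrt (by linarith)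
  have hs0 : 0 ≤ s := Real.sqrt_nonneg _
  set r := √3 with hr
  -- `w* ≥ 0`
  have hw0 : 0 ≤ (s - r * a) / 2 := by
    have : r * a ≤ s := by
      refine abs_le_of_sq_le_sq' ?_ hs0 |>.2
      rw [mul_pow, h3, hs2]
      linarith
    linarith
  -- `Q* ≥ 1`
  have ha1 : a < 1 := by nlinarith
  have hQ1 : 1 ≤ (a + r * s) / 2 := by
    have : 2 - a ≤ r * s := by
      refine abs_le_of_sq_le_sq' ?_ (by positivity) |>.2
      rw [mul_pow, h3, hs2]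
      nlinarith
    linarith
  have hst : ((a + r * s) / 2) ^ 2 + ((s - r * a) / 2) ^ 2 = 4 / 3 := by
    have : ((a + r * s) / 2) ^ 2 + ((s - r * a) / 2) ^ 2 = (a ^ 2 + s ^ 2) * (1 + r ^ 2) / 4 := by
      ring
    rw [this, h3, hs2]; ring
  -- the function
  set F : ℝ → ℝ := fun w => (√(4 / 3 - w ^ 2) + a) ^ 2 + (w + T) ^ 2 with hF
  have hcont : ContinuousOn F (Set.Icc 0 ((s - r * a) / 2)) := by
    refine Continuous.continuousOn ?_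
    rw [hF]
    fun_prop
  have hF0 : F 0 ≤ 4 := by
    have h1 : √(4 / 3 - (0 : ℝ) ^ 2) = 2 / r := by
      rw [show (4 / 3 - (0 : ℝ) ^ 2) = (2 / r) ^ 2 by rw [div_pow, h3]; norm_num]
      exact Real.sqrt_sq (by positivity)
    rw [hF]
    show (√(4 / 3 - (0 : ℝ) ^ 2) + a) ^ 2 + (0 + T) ^ 2 ≤ 4
    rw [h1, zero_add]
    exact hbl.le
  have hF1 : 4 ≤ F ((s - r * a) / 2) := by
    have h1 : √(4 / 3 - ((s - r * a) / 2) ^ 2) = (a + r * s) / 2 := by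
      rw [show (4 / 3 - ((s - r * a) / 2) ^ 2) = ((a + r * s) / 2) ^ 2 by linarith]
      exact Real.sqrt_sq (by linarith)
    rw [hF]
    show 4 ≤ (√(4 / 3 - ((s - r * a) / 2) ^ 2) + a) ^ 2 + ((s - r * a) / 2 + T) ^ 2
    rw [h1]
    have hsT : s ≤ T := by
      refine abs_le_of_sq_le_sq' ?_ hT |>.2
      rw [hs2]; linarith
    have h2 : ((s - r * a) / 2 + s) ^ 2 ≤ ((s - r * a) / 2 + T) ^ 2 :=
      pow_le_pow_left₀ (by linarith) (by linarith) 2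
    have h3' : ((a + r * s) / 2 + a) ^ 2 + ((s - r * a) / 2 + s) ^ 2 = 4 := by
      have : ((a + r * s) / 2 + a) ^ 2 + ((s - r * a) / 2 + s) ^ 2 =
          (a ^ 2 + s ^ 2) * (9 + r ^ 2) / 4 := by ring
      rw [this, h3, hs2]; ring
    linarith
  obtain ⟨w, hw, hwF⟩ := intermediate_value_Icc hw0 hcont (Set.mem_Icc.2 ⟨hF0, hF1⟩)
  have hw2 : w ^ 2 ≤ ((s - r * a) / 2) ^ 2 := pow_le_pow_left₀ hw.1 hw.2 2
  have hpos : 0 ≤ 4 / 3 - w ^ 2 := by nlinarith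
  refine ⟨√(4 / 3 - w ^ 2), w, ?_, hw.1, ?_, hwF, hw.2, ?_, ha2⟩
  · refine hQ1.trans ?_
    refine Real.le_sqrt_of_sq_le ?_
    linarith
  · rw [Real.sq_sqrt hpos]; ring
  · refine Real.le_sqrt_of_sq_le ?_
    linarith

/-- the rotation by 60 degrees -/
theorem rot_core {a b Q w T : ℝ} (ha : 0 ≤ a) (ha3 : 3 * a ^ 2 < 1) (hb : 0 ≤ b) (hQ1 : 1 ≤ Q)
    (hw0 : 0 ≤ w) (hQw : Q ^ 2 + w ^ 2 = 4 / 3) (hw : w ≤ (√(4 / 3 - a ^ 2) - √3 * a) / 2)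
    (hQ : (a + √3 * √(4 / 3 - a ^ 2)) / 2 ≤ Q) (hab : 1 ≤ a ^ 2 + a * b + b ^ 2) (hT0 : 0 ≤ T)
    (hT : 4 / 3 < b ^ 2 + T ^ 2) : 4 ≤ (Q + b) ^ 2 + (T - w) ^ 2 := by
  rcases le_or_gt Q b with hbQ | hbQ
  · nlinarith [sq_nonneg (T - w)]
  have h3 : √3 ^ 2 = 3 := Real.sq_sqrt (by norm_num)
  have h30 : 0 < √3 := by positivity
  set s := √(4 / 3 - a ^ 2) with hs
  have hs2 : s ^ 2 = 4 / 3 - a ^ 2 := Real.sq_sqrt (by linarith)
  have hs0 : 0 ≤ s := Real.sqrt_nonneg _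
  have hb2 : b ^ 2 ≤ 4 / 3 := by nlinarith
  set t := √(4 / 3 - b ^ 2) with ht
  have ht2 : t ^ 2 = 4 / 3 - b ^ 2 := Real.sq_sqrt (by linarith)
  have ht0 : 0 ≤ t := Real.sqrt_nonneg _
  set r := √3 with hr
  have htT : t ≤ T := by
    refine abs_le_of_sq_le_sq' ?_ hT0 |>.2
    rw [ht2]; linarith
  have hwt : w ≤ t := by
    refine abs_le_of_sq_le_sq' ?_ ht0 |>.2
    rw [ht2]
    nlinarith
  -- `C ≥ - 2/3`
  have hC : -(2 / 3) ≤ a * b - s * t := by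
    have h1 : s * t ≤ a * b + 2 / 3 := by
      refine abs_le_of_sq_le_sq' ?_ (by positivity) |>.2
      rw [mul_pow, hs2, ht2]
      nlinarith
    linarith
  have hC2 : a * b - s * t ≤ 4 / 3 := by
    have h1 : a * b ≤ 4 / 3 := by nlinarith
    have h2 : 0 ≤ s * t := mul_nonneg hs0 ht0
    linarith
  have hN : (a * b - s * t) ^ 2 + (s * b + a * t) ^ 2 = 16 / 9 := by
    have : (a * b - s * t) ^ 2 + (s * b + a * t) ^ 2 = (a ^ 2 + s ^ 2) * (b ^ 2 + t ^ 2) := by ring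
    rw [this, hs2, ht2]; ring
  have hN0 : 0 ≤ s * b + a * t := by positivity
  have hkey : 4 / 3 - (a * b - s * t) ≤ r * (s * b + a * t) := by
    refine abs_le_of_sq_le_sq' ?_ (by positivity) |>.2
    rw [mul_pow, h3]
    nlinarith [mul_nonneg (sub_nonneg.2 hC2) (by linarith : 0 ≤ 8 / 3 + 4 * (a * b - s * t))]
  have h5 : 2 / 3 ≤ Q * b - w * t := by
    have h6 : (a + r * s) / 2 * b ≤ Q * b := mul_le_mul_of_nonneg_right hQ hb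
    have h7 : w * t ≤ (s - r * a) / 2 * t := mul_le_mul_of_nonneg_right hw ht0
    nlinarith
  have h6 : (t - w) ^ 2 ≤ (T - w) ^ 2 := pow_le_pow_left₀ (by linarith) (by linarith) 2
  nlinarith

variable {H : Type*} [NormedAddCommGroup H] [InnerProductSpace ℝ H]

/-- the distance to a vector of norm `w` -/
theorem norm_add_ge {τ v : H} {w : ℝ} (hv : ‖v‖ = w) : (‖τ‖ - w) ^ 2 ≤ ‖τ + v‖ ^ 2 := by
  have h1 : |‖τ‖ - w| ≤ ‖τ + v‖ := by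
    have h2 := abs_norm_sub_norm_le τ (-v)
    rw [norm_neg, hv, sub_neg_eq_add] at h2
    exact h2
  rw [← sq_abs (‖τ‖ - w)]
  exact pow_le_pow_left₀ (abs_nonneg _) h1 2

/-- `τ₁` moved by `w` in its own direction -/
theorem norm_add_self {τ : H} {w : ℝ} (hτ : 0 < ‖τ‖) (hw : 0 ≤ w) :
    ‖τ + (w / ‖τ‖) • τ‖ = w + ‖τ‖ ∧ ‖(w / ‖τ‖) • τ‖ = w := by
  constructor
  · have h1 : τ + (w / ‖τ‖) • τ = (1 + w / ‖τ‖) • τ := by rw [add_smul, one_smul]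
    rw [h1, norm_smul, Real.norm_eq_abs, abs_of_nonneg (by positivity)]
    field_simp
    ring
  · rw [norm_smul, Real.norm_eq_abs, abs_of_nonneg (by positivity)]
    field_simp

/-- index `j` is fine if `P₁² + P₁ P_j + P_j² ≥ 1` -/
theorem rot_fine {τ₁ τ₂ : H} {a b Q w : ℝ} (ha : 0 ≤ a) (ha3 : 3 * a ^ 2 < 1) (hb : 0 ≤ b)
    (hQ1 : 1 ≤ Q) (hw0 : 0 ≤ w) (hQw : Q ^ 2 + w ^ 2 = 4 / 3)
    (hw : w ≤ (√(4 / 3 - a ^ 2) - √3 * a) / 2)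
    (hQ : (a + √3 * √(4 / 3 - a ^ 2)) / 2 ≤ Q) (hτ : 0 < ‖τ₁‖)
    (hab : 1 ≤ a ^ 2 + a * b + b ^ 2)
    (hB : 4 / 3 < b ^ 2 + ‖τ₂‖ ^ 2) : 4 ≤ (Q + b) ^ 2 + ‖τ₂ + (w / ‖τ₁‖) • τ₁‖ ^ 2 := by
  have h1 := rot_core ha ha3 hb hQ1 hw0 hQw hw hQ hab (norm_nonneg τ₂) hB
  have h2 := norm_add_ge (τ := τ₂) (norm_add_self hτ hw0).2
  linarith

end PCH84
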