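import Pool.Agent.PCH84.Exc
import Pool.Agent.PCP53.Big

/-!
# The selection lemma
-/

set_option autoImplicit false

namespace PCH84

theorem rho_facts : 1 ≤ 2 / √3 ∧ 2 / √3 ≤ 116 / 100 ∧ (2 / √3) ^ 2 = 4 / 3 := by
  have h3 : √3 ^ 2 = 3 := Real.sq_sqrt (by norm_num)
  have h30 : 0 < √3 := by positivity
  refine ⟨?_, PCP53.rho_le, ?_⟩
  · rw [le_div_iff₀ h30, one_mul]
    nlinarith
  · rw [div_pow, h3]; norm_num

theorem exists_q {H : Type*} [NormedAddCommGroup H] [InnerProductSpace ℝ H] {ι : Type*}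
    (P : ι → ℝ) (τ : ι → H) (hP : ∀ i, 0 ≤ P i) (hpair : ∀ i j, i ≠ j → 1 ≤ P i + P j)
    (htight : ∀ i j, i ≠ j → P i + P j < 2 / √3 → ‖τ i - τ j‖ ^ 2 ≤ 3)
    (htri : ∀ i j k, i ≠ j → i ≠ k → j ≠ k →
      3 ≤ 2 * P i + P j + P k ∨ 3 ≤ P i + 2 * P j + P k ∨ 3 ≤ P i + P j + 2 * P k)
    (hunc : ∀ i, 4 / 3 < P i ^ 2 + ‖τ i‖ ^ 2) :
    ∃ (Q : ℝ) (v : H), 1 ≤ Q ∧ Q ^ 2 + ‖v‖ ^ 2 ≤ 4 / 3 ∧
      ∀ i, 4 ≤ (Q + P i) ^ 2 + ‖τ i + v‖ ^ 2 ∧ (Q + P i < 2 / √3 → ‖τ i + v‖ ^ 2 ≤ 3) := by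
  obtain ⟨hr1, hr2, hr3⟩ := rho_facts
  by_cases hbl : ∃ i, (2 / √3 + P i) ^ 2 + ‖τ i‖ ^ 2 < 4
  swap
  · push Not at hbl
    refine ⟨2 / √3, 0, hr1, ?_, fun i => ⟨?_, fun h => ?_⟩⟩
    · rw [norm_zero, hr3]; norm_num
    · rw [add_zero]; exact hbl i
    · exact absurd h (not_lt.2 (by linarith [hP i]))
  obtain ⟨i, hi⟩ := hbl
  have ha := hP i
  obtain ⟨Q, w, hQ1, hw0, hQw, hEq, hw, hQ, ha3⟩ := exists_w ha (norm_nonneg (τ i)) (hunc i) hi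
  have hτ : 0 < ‖τ i‖ := by
    rcases (norm_nonneg (τ i)).lt_or_eq with h | h
    · exact h
    · exfalso
      have := hunc i
      rw [← h] at this
      nlinarith
  have ha58 : P i < 58 / 100 := by nlinarith
  obtain ⟨hv1, hv2⟩ := norm_add_self hτ hw0
  -- the blocked index itself, and the last condition
  have hself : 4 ≤ (Q + P i) ^ 2 + ‖τ i + (w / ‖τ i‖) • τ i‖ ^ 2 ∧
      ‖τ i + (w / ‖τ i‖) • τ i‖ ^ 2 ≤ 3 := by
    rw [hv1]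
    refine ⟨hEq.ge, ?_⟩
    nlinarith
  have hvac : ∀ k, k ≠ i → ¬ Q + P k < 2 / √3 := by
    intro k hk h
    have := hpair k i hk
    linarith
  have hQv : Q ^ 2 + ‖(w / ‖τ i‖) • τ i‖ ^ 2 ≤ 4 / 3 := by
    rw [hv2]; exact hQw.le
  have hrot : ∀ k, k ≠ i → 1 ≤ P i ^ 2 + P i * P k + P k ^ 2 →
      4 ≤ (Q + P k) ^ 2 + ‖τ k + (w / ‖τ i‖) • τ i‖ ^ 2 := fun k _ h =>
    rot_fine ha ha3 (hP k) hQ1 hw0 hQw hw hQ hτ h (hunc k)
  by_cases hexc : ∃ j, j ≠ i ∧ P i ^ 2 + P i * P j + P j ^ 2 < 1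
  swap
  · push Not at hexc
    refine ⟨Q, (w / ‖τ i‖) • τ i, hQ1, hQv, fun k => ?_⟩
    by_cases hk : k = i
    · subst hk
      exact ⟨hself.1, fun _ => hself.2⟩
    · exact ⟨hrot k hk (hexc k hk), fun h => absurd h (hvac k hk)⟩
  obtain ⟨j, hji, hj⟩ := hexc
  have hb := hP j
  have hsum1 : 1 ≤ P i + P j := hpair i j (Ne.symm hji)
  have hsum : P i + P j < 2 / √3 := by
    refine abs_lt_of_sq_lt_sq' ?_ (by linarith) |>.2
    rw [hr3]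
    nlinarith [sq_nonneg (P i - P j), mul_nonneg ha hb]
  rcases le_or_gt (1 / 4) (P i) with h4 | h4
  · exact PCP53.case_big P τ htight htri hunc i j (Ne.symm hji) h4 (by linarith) hsum1 hsum
  have hd := htight i j (Ne.symm hji) hsum
  have hsmall : ∀ k, P i ^ 2 + P i * P k + P k ^ 2 < 1 → P k < 1 - P i / 3 := by
    intro k hk
    by_contra hcon
    push Not at hcon
    nlinarith [hP k]
  refine ⟨Q, (w / ‖τ i‖) • τ i, hQ1, hQv, fun k => ?_⟩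
  by_cases hk : k = i
  · subst hk
    exact ⟨hself.1, fun _ => hself.2⟩
  refine ⟨?_, fun h => absurd h (hvac k hk)⟩
  by_cases hkj : k = j
  · subst hkj
    exact exc_fine ha h4.le hsum1 (by linarith) hd hτ (hunc i) (hunc k) hQ1 hw0 hQw hw hQ
  · refine hrot k hk ?_
    by_contra hcon
    push Not at hcon
    have h5 := hsmall k hcon
    have h6 := hsmall j hj
    rcases htri i j k (Ne.symm hji) (Ne.symm hk) (Ne.symm hkj) with h | h | h <;> linarith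

end PCH84
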